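import Pool.Agent.H500.ME.Stm

/-!
# ME C3: the average of the trace is the dimension of the invariants
-/

set_option autoImplicit false
set_option linter.all false

namespace Pool.Agent.H665.ME.AVT

open Pool.Agent.H500.ME

theorem main : Pool.Agent.H500.ME.S_AVT := by
  intro G _ W n C _ _ ρ hN hF hW
  classical
  haveI := hN
  haveI := hF
  letI : Fintype (G ⧸ W) := Fintype.ofFinite _
  -- the value depends only on the coset
  have hρ : ∀ g h : G, (QuotientGroup.mk g : G ⧸ W) = QuotientGroup.mk h → ρ g = ρ h := by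
    intro g h hgh
    rw [QuotientGroup.eq] at hgh
    have h1 := hW hgh
    rw [MonoidHom.mem_ker, map_mul, map_inv] at h1
    exact inv_mul_eq_one.1 h1
  let R : G ⧸ W → Matrix (Fin n) (Fin n) C := fun x =>
    (ρ (Quotient.out x) : Matrix (Fin n) (Fin n) C)
  have hR : ∀ g : G, R (QuotientGroup.mk g) = (ρ g : Matrix (Fin n) (Fin n) C) := by
    intro g
    show ((ρ (Quotient.out (QuotientGroup.mk g : G ⧸ W)) : GL (Fin n) C) :
      Matrix (Fin n) (Fin n) C) = _
    rw [hρ _ g (QuotientGroup.out_eq' _)]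
  have hRm : ∀ (g : G) (x : G ⧸ W), (ρ g : Matrix (Fin n) (Fin n) C) * R x =
      R ((QuotientGroup.mk g : G ⧸ W) * x) := by
    intro g x
    induction x using QuotientGroup.induction_on with
    | H h =>
      rw [hR, ← QuotientGroup.mk_mul, hR, map_mul]
      rfl
  have hi0 : (W.index : C) ≠ 0 := Nat.cast_ne_zero.2 hF.index_ne_zero
  let A : Matrix (Fin n) (Fin n) C := ∑ x, R x
  have hA : ∀ g : G, (ρ g : Matrix (Fin n) (Fin n) C) * A = A := by
    intro g
    show (ρ g : Matrix (Fin n) (Fin n) C) * (∑ x, R x) = ∑ x, R x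
    rw [Finset.mul_sum]
    rw [Finset.sum_congr rfl fun x _ => hRm g x]
    exact Fintype.sum_equiv (Equiv.mulLeft (QuotientGroup.mk g : G ⧸ W)) _ _ fun x => rfl
  let f : (Fin n → C) →ₗ[C] (Fin n → C) := (W.index : C)⁻¹ • Matrix.toLin' A
  have hf : ∀ v, f v = (W.index : C)⁻¹ • A.mulVec v := by
    intro v
    show ((W.index : C)⁻¹ • Matrix.toLin' A) v = _
    rw [LinearMap.smul_apply, Matrix.toLin'_apply]
  have hproj : LinearMap.IsProj (Inv ρ) f := by
    constructor
    · intro v g
      show (ρ g : Matrix (Fin n) (Fin n) C).mulVec (f v) = f v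
      rw [hf, Matrix.mulVec_smul, Matrix.mulVec_mulVec, hA]
    · intro v hv
      have hv' : ∀ g, (ρ g : Matrix (Fin n) (Fin n) C).mulVec v = v := hv
      rw [hf]
      have h1 : A.mulVec v = (W.index : C) • v := by
        show (∑ x, R x).mulVec v = _
        rw [Matrix.sum_mulVec]
        have h2 : ∀ x ∈ (Finset.univ : Finset (G ⧸ W)), (R x).mulVec v = v := fun x _ => hv' _
        rw [Finset.sum_congr rfl h2, Finset.sum_const, Finset.card_univ, Subgroup.index_eq_card,
          Nat.card_eq_fintype_card, Nat.cast_smul_eq_nsmul]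
      rw [h1, smul_smul, inv_mul_cancel₀ hi0, one_smul]
  have h1 := hproj.trace
  have h2 : LinearMap.trace C (Fin n → C) f = (W.index : C)⁻¹ * A.trace := by
    show LinearMap.trace C (Fin n → C) ((W.index : C)⁻¹ • Matrix.toLin' A) = _
    rw [map_smul, Matrix.trace_toLin'_eq, smul_eq_mul]
  rw [h2] at h1
  rw [finsum_eq_sum_of_fintype, ← h1, mul_inv_cancel_left₀ hi0]
  show _ = (∑ x, R x).trace
  rw [Matrix.trace_sum]

end Pool.Agent.H665.ME.AVT
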